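import Mathlib

namespace Pool.Agent.H.MP_f5e42a_co

open Module

variable {𝕜 E : Type*} [RCLike 𝕜] [NormedAddCommGroup E] [InnerProductSpace 𝕜 E]
  [FiniteDimensional 𝕜 E]


structure Data (W : Fin 6 → Submodule 𝕜 E) (p : Fin 6 → E →ₗ[𝕜] E) (α : ℝ) : Prop where
  mem : ∀ i x, p i x ∈ W i
  fix : ∀ i, ∀ x ∈ W i, p i x = x
  sym : ∀ i x y, inner 𝕜 (p i x) y = inner 𝕜 x (p i y)
  iso : ∀ i j, i ≠ j → ∀ x ∈ W j, ‖p i x‖ = α * ‖x‖

variable {W : Fin 6 → Submodule 𝕜 E} {p : Fin 6 → E →ₗ[𝕜] E} {α : ℝ}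

omit [FiniteDimensional 𝕜 E] in
lemma Data.pp (h : Data W p α) {i j : Fin 6} (hij : i ≠ j) {x : E} (hx : x ∈ W j) :
    p j (p i x) = ((α ^ 2 : ℝ) : 𝕜) • x := by
  have a := h.iso i j hij x hx
  have b := h.iso j i hij.symm _ (h.mem i x)
  have c : inner 𝕜 (p j (p i x)) x = ((‖p i x‖ ^ 2 : ℝ) : 𝕜) := by
    rw [h.sym, h.fix j x hx, ← h.fix i _ (h.mem i x), h.sym, h.fix i _ (h.mem i x),
      inner_self_eq_norm_sq_to_K]
    simp
  have d := norm_sub_sq (𝕜 := 𝕜) (p j (p i x)) (((α ^ 2 : ℝ) : 𝕜) • x)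
  rw [inner_smul_right, c, ← RCLike.ofReal_mul, RCLike.ofReal_re, norm_smul, RCLike.norm_ofReal,
    b, a, abs_of_nonneg (sq_nonneg α)] at d
  rw [← sub_eq_zero, ← norm_eq_zero, ← pow_eq_zero_iff two_ne_zero, d]
  ring

omit [FiniteDimensional 𝕜 E] in
lemma Data.q (h : Data W p (1 / 3)) {i j : Fin 6} (hij : i ≠ j) {x y : E} (hx : x ∈ W i)
    (hy : y ∈ W j) :
    ‖x + (3 : 𝕜) • p i y‖ ^ 2 = ‖x‖ ^ 2 + 6 * RCLike.re (inner 𝕜 x y) + ‖y‖ ^ 2 := by
  rw [norm_add_sq (𝕜 := 𝕜), inner_smul_right, ← h.sym, h.fix i x hx, norm_smul,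
    h.iso i j hij y hy]
  simp
  ring

omit [FiniteDimensional 𝕜 E] in
lemma Data.rel (h : Data W p (1 / 3)) {i j : Fin 6} (hij : i ≠ j) {x y : E} (hx : x ∈ W i)
    (hy : y ∈ W j) (e : ‖x‖ ^ 2 + 6 * RCLike.re (inner 𝕜 x y) + ‖y‖ ^ 2 = 0) :
    x + (3 : 𝕜) • p i y = 0 ∧ y + (3 : 𝕜) • p j x = 0 := by
  have a := h.q hij hx hy
  have b := h.q hij.symm hy hx
  rw [inner_re_symm] at b
  constructor <;> rw [← norm_eq_zero, ← pow_eq_zero_iff two_ne_zero] <;> linarith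

def D (W : Fin 6 → Submodule 𝕜 E) (p : Fin 6 → E →ₗ[𝕜] E) (j k : Fin 6) : Submodule 𝕜 E :=
  W 0 ⊓ (LinearMap.ker (p j + (3 : 𝕜) • (p j ∘ₗ p k)) ⊓ LinearMap.ker (p k + (3 : 𝕜) • (p k ∘ₗ p j)))

omit [FiniteDimensional 𝕜 E] in
lemma mem_D {j k : Fin 6} {x : E} : x ∈ D W p j k ↔ x ∈ W 0 ∧
    p j x + (3 : 𝕜) • p j (p k x) = 0 ∧ p k x + (3 : 𝕜) • p k (p j x) = 0 := by
  simp [D]

lemma Data.low (h : Data W p (1 / 3)) (r : ℕ) (hr : ∀ i, finrank 𝕜 (W i) = r) {j k l : Fin 6}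
    (j0 : 0 ≠ j) (k0 : 0 ≠ k) (l0 : 0 ≠ l) (jk : j ≠ k) (jl : j ≠ l) (kl : k ≠ l) :
    4 * r ≤ finrank 𝕜 E + finrank 𝕜 (D W p j k ⊓ D W p j l ⊓ D W p k l : Submodule 𝕜 E) := by
  let φ : (W 0 × W j × W k × W l) →ₗ[𝕜] E :=
    (W 0).subtype.coprod ((W j).subtype.coprod ((W k).subtype.coprod (W l).subtype))
  have a := φ.finrank_range_add_finrank_ker
  have b := (LinearMap.range φ).finrank_le
  simp only [finrank_prod, hr] at a
  have key : ∀ v ∈ LinearMap.ker φ, (v.2.1 : E) + (3 : 𝕜) • p j v.1 = 0 ∧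
      (v.2.2.1 : E) + (3 : 𝕜) • p k v.1 = 0 ∧ (v.2.2.2 : E) + (3 : 𝕜) • p l v.1 = 0 ∧
      (v.1 : E) ∈ D W p j k ⊓ D W p j l ⊓ D W p k l := by
    rintro ⟨⟨x, hx⟩, ⟨y, hy⟩, ⟨z, hz⟩, ⟨w, hw⟩⟩ hv
    have e : x + (y + (z + w)) = 0 := hv
    have n := congrArg (fun t => ‖t‖ ^ 2) e
    simp only [norm_add_sq (𝕜 := 𝕜), inner_add_right, map_add, norm_zero] at n
    have q1 := h.q j0 hx hy
    have q2 := h.q k0 hx hz
    have q3 := h.q l0 hx hw
    have q4 := h.q jk hy hz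
    have q5 := h.q jl hy hw
    have q6 := h.q kl hz hw
    have s1 := sq_nonneg ‖x + (3 : 𝕜) • p 0 y‖
    have s2 := sq_nonneg ‖x + (3 : 𝕜) • p 0 z‖
    have s3 := sq_nonneg ‖x + (3 : 𝕜) • p 0 w‖
    have s4 := sq_nonneg ‖y + (3 : 𝕜) • p j z‖
    have s5 := sq_nonneg ‖y + (3 : 𝕜) • p j w‖
    have s6 := sq_nonneg ‖z + (3 : 𝕜) • p k w‖
    have r1 := (h.rel j0 hx hy (by linarith)).2
    have r2 := (h.rel k0 hx hz (by linarith)).2
    have r3 := (h.rel l0 hx hw (by linarith)).2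
    have r4 := h.rel jk hy hz (by linarith)
    have r5 := h.rel jl hy hw (by linarith)
    have r6 := h.rel kl hz hw (by linarith)
    refine ⟨r1, r2, r3, ?_⟩
    have t : ∀ a b u v, u + (3 : 𝕜) • p a x = 0 → v + (3 : 𝕜) • p b x = 0 →
        u + (3 : 𝕜) • p a v = 0 → p a x + (3 : 𝕜) • p a (p b x) = 0 := by
      intro a b u v h1 h2 h3
      rw [eq_neg_of_add_eq_zero_left h1, eq_neg_of_add_eq_zero_left h2, map_neg, map_smul] at h3
      have : (-3 : 𝕜) • (p a x + (3 : 𝕜) • p a (p b x)) = 0 := by rw [← h3]; module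
      exact (smul_eq_zero.1 this).resolve_left (by norm_num)
    exact ⟨⟨mem_D.2 ⟨hx, t _ _ _ _ r1 r2 r4.1, t _ _ _ _ r2 r1 r4.2⟩,
      mem_D.2 ⟨hx, t _ _ _ _ r1 r3 r5.1, t _ _ _ _ r3 r1 r5.2⟩⟩,
      mem_D.2 ⟨hx, t _ _ _ _ r2 r3 r6.1, t _ _ _ _ r3 r2 r6.2⟩⟩
  let ψ : LinearMap.ker φ →ₗ[𝕜] (D W p j k ⊓ D W p j l ⊓ D W p k l : Submodule 𝕜 E) :=
    LinearMap.codRestrict _ ((W 0).subtype ∘ₗ LinearMap.fst _ _ _ ∘ₗ (LinearMap.ker φ).subtype)
      fun v => (key v.1 v.2).2.2.2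
  have c := LinearMap.finrank_le_finrank_of_injective (f := ψ) (by
    rw [injective_iff_map_eq_zero]
    intro v hv
    have e : (v.1.1 : E) = 0 := congrArg Subtype.val hv
    obtain ⟨k1, k2, k3, -⟩ := key v.1 v.2
    simp only [e, map_zero, smul_zero, add_zero] at k1 k2 k3
    ext <;> simp [e, k1, k2, k3])
  omega

lemma Data.up (h : Data W p (1 / 3)) (r : ℕ) (hr : ∀ i, finrank 𝕜 (W i) = r) {j k l m n : Fin 6}
    (j0 : 0 ≠ j) (k0 : 0 ≠ k) (jk : j ≠ k)
    (hs : ∀ z, p 0 z + p j z + p k z + p l z + p m z + p n z = (14 / 9 : 𝕜) • z) :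
    finrank 𝕜 E + finrank 𝕜 (D W p j k) ≤ 4 * r := by
  let φ : E →ₗ[𝕜] (W l × W m × W n) := ((p l).codRestrict _ (h.mem l)).prod
    (((p m).codRestrict _ (h.mem m)).prod ((p n).codRestrict _ (h.mem n)))
  have a := φ.finrank_range_add_finrank_ker
  have b := (LinearMap.range φ).finrank_le
  simp only [finrank_prod, hr] at b
  have hz : ∀ z ∈ LinearMap.ker φ, p 0 z + p j z + p k z = (14 / 9 : 𝕜) • z := by
    intro z hz
    have e1 : p l z = 0 := congrArg (fun v => (v.1 : E)) hz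
    have e2 : p m z = 0 := congrArg (fun v => (v.2.1 : E)) hz
    have e3 : p n z = 0 := congrArg (fun v => (v.2.2 : E)) hz
    simpa [e1, e2, e3] using hs z
  have idem : ∀ i z, p i (p i z) = p i z := fun i z => h.fix i _ (h.mem i z)
  have inj : ∀ z ∈ LinearMap.ker φ, p 0 z = 0 → z = 0 := by
    intro z h1 h0
    have e := hz z h1
    rw [h0, zero_add] at e
    have e1 := congrArg (p j) e
    have e2 := congrArg (p k) e
    rw [map_add, map_smul, idem] at e1 e2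
    have f1 : p j (p k z) = (5 / 9 : 𝕜) • p j z := by linear_combination (norm := module) e1
    have f2 : p k (p j z) = (5 / 9 : 𝕜) • p k z := by linear_combination (norm := module) e2
    have g1 := h.iso j k jk _ (h.mem k z)
    have g2 := h.iso k j jk.symm _ (h.mem j z)
    rw [f1, norm_smul] at g1
    rw [f2, norm_smul] at g2
    simp only [norm_div, RCLike.norm_ofNat] at g1 g2
    have n1 : p j z = 0 := norm_eq_zero.1 (by linarith)
    have n2 : p k z = 0 := norm_eq_zero.1 (by linarith)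
    rw [n1, n2, add_zero] at e
    exact (smul_eq_zero.1 e.symm).resolve_left (by norm_num)
  have c : finrank 𝕜 (LinearMap.ker φ) = finrank 𝕜 ((LinearMap.ker φ).map (p 0)) := by
    rw [← LinearMap.range_domRestrict, LinearMap.finrank_range_of_inj]
    rw [injective_iff_map_eq_zero]
    exact fun v hv => Subtype.ext (inj v.1 v.2 hv)
  have dis : D W p j k ⊓ (LinearMap.ker φ).map (p 0) = ⊥ := by
    rw [eq_bot_iff]
    rintro x ⟨hx, z, h1, rfl⟩
    obtain ⟨x0, x1, x2⟩ := mem_D.1 hx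
    obtain ⟨x, ex⟩ : ∃ x, x = p 0 z := ⟨_, rfl⟩
    have e := hz z h1
    have u : ∀ y, inner 𝕜 z (p 0 y) + inner 𝕜 z (p j y) + inner 𝕜 z (p k y) =
        14 / 9 * inner 𝕜 z y := by
      intro y
      rw [← h.sym, ← h.sym, ← h.sym, ← inner_add_left, ← inner_add_left, e, inner_smul_left]
      simp [map_ofNat]
    rw [← ex] at x0 x1 x2
    have u0 := u x
    have u1 := u (p j x)
    have u2 := u (p k x)
    have y1 := congrArg (inner 𝕜 z) x1
    have y2 := congrArg (inner 𝕜 z) x2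
    rw [h.fix 0 x x0] at u0
    rw [h.pp j0.symm x0, idem, inner_smul_right] at u1
    rw [h.pp k0.symm x0, idem, inner_smul_right] at u2
    rw [inner_add_right, inner_smul_right, inner_zero_right] at y1 y2
    push_cast at u1 u2
    have t : inner 𝕜 z x = 0 := by
      linear_combination (-36 / 11 : 𝕜) * u0 - 36 / 11 * 9 / 8 * u1 - 36 / 11 * 9 / 8 * u2 +
        36 / 11 * 3 / 8 * y1 + 36 / 11 * 3 / 8 * y2
    rw [ex, ← idem, ← h.sym, inner_self_eq_zero] at t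
    exact t
  have d := Submodule.finrank_sup_add_finrank_inf_eq (D W p j k) ((LinearMap.ker φ).map (p 0))
  rw [dis, finrank_bot] at d
  have e := Submodule.finrank_mono (show D W p j k ⊔ (LinearMap.ker φ).map (p 0) ≤ W 0 from
    sup_le inf_le_left (by rintro _ ⟨z, -, rfl⟩; exact h.mem 0 z))
  rw [hr] at e
  omega

lemma Data.false (h : Data W p α) (r : ℕ) (hr : ∀ i, finrank 𝕜 (W i) = r) (r0 : 0 < r)
    (hd : 7 * finrank 𝕜 E = 27 * r) (c : 𝕜) (hc : ∀ z, ∑ i, p i z = c • z) : False := by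
  have tr : ∀ i, LinearMap.trace 𝕜 E (p i) = r := fun i => by
    rw [LinearMap.IsProj.trace (p := W i) ⟨h.mem i, h.fix i⟩, hr]
  have e : ∑ i, p i = c • LinearMap.id := by ext z; simpa using hc z
  have t := congrArg (LinearMap.trace 𝕜 E) e
  simp only [map_sum, tr, map_smul, LinearMap.trace_id, Finset.sum_const, Finset.card_univ,
    Fintype.card_fin, nsmul_eq_mul, smul_eq_mul] at t
  have hd' : (7 * finrank 𝕜 E : 𝕜) = 27 * r := by exact_mod_cast hd
  have r1 : (r : 𝕜) ≠ 0 := by exact_mod_cast r0.ne'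
  obtain rfl : c = 14 / 9 := by
    apply mul_right_cancel₀ r1
    push_cast at t
    linear_combination (-7 / 27 : 𝕜) * t - c / 27 * hd'
  have ex : ∀ U : Submodule 𝕜 E, 0 < finrank 𝕜 U → ∃ x ∈ U, x ≠ 0 := fun U hU =>
    U.exists_mem_ne_zero_of_ne_bot fun h => by rw [h, finrank_bot] at hU; omega
  obtain rfl : α = 1 / 3 := by
    obtain ⟨x, hx, x0⟩ := ex (W 0) (by rw [hr]; exact r0)
    have a := congrArg (p 0) (hc x)
    simp only [Fin.sum_univ_six, map_add, map_smul, h.fix 0 x hx,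
      h.pp (show (1 : Fin 6) ≠ 0 by decide) hx, h.pp (show (2 : Fin 6) ≠ 0 by decide) hx,
      h.pp (show (3 : Fin 6) ≠ 0 by decide) hx, h.pp (show (4 : Fin 6) ≠ 0 by decide) hx,
      h.pp (show (5 : Fin 6) ≠ 0 by decide) hx] at a
    have b : ((5 * α ^ 2 - 5 / 9 : ℝ) : 𝕜) • x = 0 := by
      push_cast at a ⊢
      linear_combination (norm := module) a
    have b := (smul_eq_zero.1 b).resolve_right x0
    rw [RCLike.ofReal_eq_zero] at b
    have c := h.iso 1 0 (by decide) x hx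
    have d := norm_pos_iff.2 x0
    have : 0 ≤ α := by
      by_contra hn
      nlinarith [norm_nonneg (p 1 x)]
    nlinarith
  simp only [Fin.sum_univ_six] at hc
  have u1 := h.up r hr (j := 1) (k := 2) (l := 3) (m := 4) (n := 5) (by decide) (by decide)
    (by decide) hc
  have u2 := h.up r hr (j := 1) (k := 3) (l := 2) (m := 4) (n := 5) (by decide) (by decide)
    (by decide) fun z => by rw [← hc z]; abel
  have l1 := h.low r hr (j := 1) (k := 2) (l := 3) (by decide) (by decide) (by decide) (by decide)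
    (by decide) (by decide)
  have l2 := h.low r hr (j := 1) (k := 2) (l := 4) (by decide) (by decide) (by decide) (by decide)
    (by decide) (by decide)
  have l3 := h.low r hr (j := 1) (k := 3) (l := 4) (by decide) (by decide) (by decide) (by decide)
    (by decide) (by decide)
  have e1 := Submodule.eq_of_le_of_finrank_le (inf_le_left.trans inf_le_left)
    (show finrank 𝕜 (D W p 1 2) ≤ finrank 𝕜 (D W p 1 2 ⊓ D W p 1 4 ⊓ D W p 2 4 : Submodule 𝕜 E) by
      omega)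
  have e2 := Submodule.eq_of_le_of_finrank_le (inf_le_left.trans inf_le_left)
    (show finrank 𝕜 (D W p 1 3) ≤ finrank 𝕜 (D W p 1 3 ⊓ D W p 1 4 ⊓ D W p 3 4 : Submodule 𝕜 E) by
      omega)
  obtain ⟨x, ⟨⟨x12, x13⟩, x23⟩, x0⟩ := ex (D W p 1 2 ⊓ D W p 1 3 ⊓ D W p 2 3) (by omega)
  obtain ⟨⟨-, x14⟩, x24⟩ := e1.ge x12
  obtain ⟨-, x34⟩ := e2.ge x13
  obtain ⟨hx, a12, a21⟩ := mem_D.1 x12
  obtain ⟨-, a13, a31⟩ := mem_D.1 x13
  obtain ⟨-, a23, a32⟩ := mem_D.1 x23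
  have a41 := (mem_D.1 x14).2.2
  have a42 := (mem_D.1 x24).2.2
  have a43 := (mem_D.1 x34).2.2
  have idem : ∀ i z, p i (p i z) = p i z := fun i z => h.fix i _ (h.mem i z)
  obtain ⟨y, hy⟩ : ∃ y, y = x - (3 : 𝕜) • (p 1 x + p 2 x + p 3 x) := ⟨_, rfl⟩
  have y0 : p 0 y = 0 := by
    rw [hy]
    simp only [map_sub, map_smul, map_add, h.fix 0 x hx, h.pp (show (1 : Fin 6) ≠ 0 by decide) hx,
      h.pp (show (2 : Fin 6) ≠ 0 by decide) hx, h.pp (show (3 : Fin 6) ≠ 0 by decide) hx]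
    push_cast
    module
  have y1 : p 1 y = 0 := by
    rw [hy]
    simp only [map_sub, map_smul, map_add, idem]
    linear_combination (norm := module) -a12 - a13
  have y2 : p 2 y = 0 := by
    rw [hy]
    simp only [map_sub, map_smul, map_add, idem]
    linear_combination (norm := module) -a21 - a23
  have y3 : p 3 y = 0 := by
    rw [hy]
    simp only [map_sub, map_smul, map_add, idem]
    linear_combination (norm := module) -a31 - a32
  have yy : y = 0 := by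
    rw [← inner_self_eq_zero (𝕜 := 𝕜)]
    nth_rewrite 1 [hy]
    rw [← h.fix 0 x hx]
    simp only [inner_sub_left, inner_smul_left, inner_add_left, h.sym, y0, y1, y2, y3,
      inner_zero_right, map_zero]
    simp
  have y4 : (4 : 𝕜) • p 4 x = 0 := by
    have := congrArg (p 4) hy
    simp only [yy, map_zero, map_sub, map_smul, map_add] at this
    linear_combination (norm := module) -this + a41 + a42 + a43
  have := h.iso 4 0 (by decide) x hx
  rw [(smul_eq_zero.1 y4).resolve_left (by norm_num), norm_zero] at this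
  have := norm_pos_iff.2 x0
  linarith

lemma final (W : Fin 6 → Submodule 𝕜 E) (r : ℕ) (hr : ∀ i, finrank 𝕜 (W i) = r) (r0 : 0 < r)
    (hd : 7 * finrank 𝕜 E = 27 * r) (α : ℝ)
    (h2 : ∀ i j, i ≠ j → ∀ x ∈ W j, ‖(W i).starProjection x‖ = α * ‖x‖) (c : 𝕜)
    (h3 : ∀ x, ∑ i, (W i).starProjection x = c • x) : False := by
  have h : Data W (fun i => ((W i).starProjection : E →ₗ[𝕜] E)) α :=
    ⟨fun i x => (W i).starProjection_apply_mem x,
      fun i x hx => Submodule.starProjection_eq_self_iff.2 hx,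
      fun i x y => (W i).inner_starProjection_left_eq_right x y, h2⟩
  exact h.false r hr r0 hd c h3

end Pool.Agent.H.MP_f5e42a_co
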